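import Pool.Agent.Results.MP_13c925_nt.AlmostAllIterates
import Pool.Agent.U513.AP.Sparse

/-!
# The Kakutani `7x+1` map near integral polynomials at simultaneous approximations

The starting file bounds the number of the `n ≤ X` all of whose iterates are at least `n ^ 0.72`. Here: for all points `α` outside
of a set of small Hausdorff dimension, ALL natural numbers near ALL integral polynomials at ALL approximations of `α` with a large
denominator have an iterate below `n ^ 0.72`.
-/

set_option autoImplicit false

open Finset

namespace Pool.Agent.Results.MP_13c925_nt.Approximations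

open Pool.Agent.U513.AP

/-- There is `η > 0` such that the property some iterate of `n` under the `7x+1` map is less than `n ^ 0.72` holds at
approximations outside of exceptional sets of exponent `1 - η`. -/
theorem result : ∃ η : ℝ, 0 < η ∧ η ≤ 1 ∧ AtApproximations (ι := Unit) (1 - η)
    (fun _ n => ∃ i : ℕ, ((AlmostAllIterates.C^[i] n : ℕ) : ℝ) < (n : ℝ) ^ (0.72 : ℝ)) := by
  classical
  obtain ⟨A, η, hη, h⟩ := AlmostAllIterates.result
  refine ⟨min η 1, lt_min hη one_pos, min_le_right _ _, ?_⟩
  refine sparse_law_pow (min_le_right _ _) _ fun _ => ⟨max A 0, 1, fun X hX => ?_⟩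
  have hX1 : (1 : ℝ) ≤ X := by exact_mod_cast hX
  refine (ncard_le_filter fun n _ _ hn i => ?_).trans ((h X hX).trans ?_)
  · exact not_lt.1 fun hlt => hn ⟨i, hlt⟩
  · have h1 : (X : ℝ) ^ (1 - η) ≤ (X : ℝ) ^ (1 - min η 1) :=
      Real.rpow_le_rpow_of_exponent_le hX1 (by linarith [min_le_left η 1])
    exact mul_le_mul (le_max_left _ _) h1 (by positivity) (le_max_right _ _)

end Pool.Agent.Results.MP_13c925_nt.Approximations
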